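import Pool.Agent.R43.BnrGraph

/-!
# MP_99edab_co: a connected graph with minimum degree at least `2` and `α_bnr > Γ_b`
-/

set_option autoImplicit false

namespace Pool.Agent.Results.MP_99edab_co.MinDegreeTwo

open Pool.Agent.R43.BnrGraph

/-- There is a finite connected graph with all degrees at least `2` and `α_bnr(G) > Γ_b(G)`. -/
theorem result : ∃ (V : Type) (_ : Fintype V) (_ : DecidableEq V) (G : SimpleGraph V),
    G.Connected ∧ (∀ v, 2 ≤ (G.neighborSet v).ncard) ∧ upperBroadcast G < bnrNumber G := by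
  refine ⟨Fin 12, inferInstance, inferInstance, G, G_connected, fun v => ?_, upper_lt_bnr⟩
  obtain ⟨x, y, hxy, hx, hy⟩ := two_neighbours v
  exact (Set.one_lt_ncard (Set.toFinite _)).2 ⟨x, hx, y, hy, hxy⟩

end Pool.Agent.Results.MP_99edab_co.MinDegreeTwo
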